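import Mathlib

set_option autoImplicit false

namespace Pool.Agent.H78SZ

open Polynomial

/-- If `reverse P` is irreducible and `P 0 ≠ 0`, then `P` is irreducible. -/
theorem irr_of_reverse (P : ℤ[X]) (h0 : P.coeff 0 ≠ 0) (hd : 1 ≤ P.natDegree) (h : Irreducible (reverse P)) : Irreducible P := by
  rw [irreducible_iff]
  constructor
  · intro hu
    have h1 := natDegree_eq_zero_of_isUnit hu
    omega
  · intro A B hAB
    have hc : A.coeff 0 * B.coeff 0 ≠ 0 := by
      rw [← mul_coeff_zero, ← hAB]; exact h0
    have hirr : Irreducible (reverse A * reverse B) := by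
      rw [← reverse_mul_of_domain, ← hAB]
      exact h
    have key : ∀ U : ℤ[X], U.coeff 0 ≠ 0 → IsUnit (reverse U) → IsUnit U := by
      intro U hU0 hu
      have h1 := natDegree_eq_zero_of_isUnit hu
      have h2 : U.natTrailingDegree = 0 := by
        rw [natTrailingDegree_eq_zero]
        exact Or.inr hU0
      have h3 := reverse_natDegree U
      rw [h1, h2] at h3
      have h4 : U.natDegree = 0 := by omega
      have h5 := eq_C_of_natDegree_eq_zero h4
      rw [h5, reverse_C] at hu
      rw [h5]
      exact hu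
    rcases hirr.isUnit_or_isUnit rfl with h | h
    · exact Or.inl (key A (left_ne_zero_of_mul hc) h)
    · exact Or.inr (key B (right_ne_zero_of_mul hc) h)

/-- `p R - 1` is irreducible when `p` does not divide the leading coefficient of `R` and `R(1) = 0` (Eisenstein for the reversed polynomial). -/
theorem irr_gen (p : ℕ) (hp : p.Prime) (R : ℤ[X]) (hn : 1 ≤ R.natDegree) (hL : ¬ (p : ℤ) ∣ R.leadingCoeff) (h1 : R.eval 1 = 0) :
    (C (p : ℤ) * R - C 1).natDegree = R.natDegree ∧ (C (p : ℤ) * R - C 1).leadingCoeff = p * R.leadingCoeff ∧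
    Irreducible (C (p : ℤ) * R - C 1) := by
  have hp0 : (p : ℤ) ≠ 0 := by exact_mod_cast hp.ne_zero
  have hpp : Prime (p : ℤ) := Nat.prime_iff_prime_int.1 hp
  obtain ⟨P, hP⟩ : ∃ P : ℤ[X], P = C (p : ℤ) * R - C 1 := ⟨_, rfl⟩
  rw [← hP]
  have hco : ∀ k : ℕ, P.coeff k = p * R.coeff k - (if k = 0 then 1 else 0) := by
    intro k
    rw [hP, coeff_sub, coeff_C_mul, coeff_C]
  have hR0 : R.leadingCoeff ≠ 0 := by
    intro h
    exact hL (h ▸ dvd_zero _)
  have hdeg : P.natDegree = R.natDegree := by
    apply natDegree_eq_of_le_of_coeff_ne_zero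
    · rw [natDegree_le_iff_coeff_eq_zero]
      intro k hk
      rw [hco, if_neg (by omega), coeff_eq_zero_of_natDegree_lt hk]
      simp
    · rw [hco, if_neg (by omega)]
      simp only [sub_zero]
      exact mul_ne_zero hp0 hR0
  have hlc : P.leadingCoeff = p * R.leadingCoeff := by
    rw [leadingCoeff, hdeg, hco, if_neg (by omega), sub_zero]
    rfl
  refine ⟨hdeg, hlc, ?_⟩
  have hP0 : ¬ (p : ℤ) ∣ P.coeff 0 := by
    rw [hco, if_pos rfl]
    intro h
    have h2 : (p : ℤ) ∣ 1 := by
      have h3 := dvd_sub (dvd_mul_right (p : ℤ) (R.coeff 0)) h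
      simpa using h3
    exact hpp.not_unit (isUnit_of_dvd_one h2)
  have hc0 : P.coeff 0 ≠ 0 := fun h => hP0 (h ▸ dvd_zero _)
  have htr : P.natTrailingDegree = 0 := by
    rw [natTrailingDegree_eq_zero]
    exact Or.inr hc0
  have hrd : (reverse P).natDegree = P.natDegree := by
    rw [reverse_natDegree, htr, Nat.sub_zero]
  apply irr_of_reverse P hc0 (by omega)
  have hPr : (Ideal.span {(p : ℤ)}).IsPrime := (Ideal.span_singleton_prime hp0).2 hpp
  refine irreducible_of_eisenstein_criterion (P := Ideal.span {(p : ℤ)}) hPr ?_ ?_ ?_ ?_ ?_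
  · rw [reverse_leadingCoeff, trailingCoeff, htr, Ideal.mem_span_singleton]
    exact hP0
  · intro k hk
    have hk' : k < P.natDegree := by
      have h1 := coe_lt_degree.1 hk
      rwa [hrd] at h1
    rw [coeff_reverse, revAt_le hk'.le, hco, if_neg (by omega), Ideal.mem_span_singleton, sub_zero]
    exact dvd_mul_right _ _
  · rw [← natDegree_pos_iff_degree_pos, hrd]; omega
  · rw [coeff_zero_reverse, hlc, Ideal.span_singleton_pow, Ideal.mem_span_singleton, sq]
    intro h
    exact hL (Int.dvd_of_mul_dvd_mul_left hp0 h)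
  · intro r hr
    obtain ⟨U, hU⟩ := hr
    have h2 : (reverse P).eval 1 = -1 := by
      have h3 : eval 1 (reverse P) = eval 1 P := by
        rw [eval_eq_sum_range, eval_eq_sum_range, hrd]
        simp only [one_pow, mul_one]
        rw [← Finset.sum_range_reflect]
        apply Finset.sum_congr rfl
        intro j hj
        rw [Finset.mem_range] at hj
        rw [coeff_reverse, revAt_le (by omega)]
        apply congrArg
        omega
      rw [h3, hP, eval_sub, eval_mul, h1, mul_zero, eval_C]
      norm_num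
    rw [hU, eval_mul, eval_C] at h2
    exact IsUnit.of_mul_eq_one (-U.eval 1) (by linarith)

end Pool.Agent.H78SZ
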