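import Mathlib

set_option autoImplicit false

namespace Pool.Agent.H78SZ

open Polynomial

/-- the block `2 X ^ d + b (1 + X + ... + X ^ d)` -/
noncomputable def Bl (b d : ℕ) : ℤ[X] := C 2 * X ^ d + C (b : ℤ) * ∑ j ∈ Finset.range (d + 1), X ^ j

theorem Bl_aeval {K : Type*} [Field K] [Algebra ℤ K] (b d : ℕ) (z : K) :
    aeval z (Bl b d) = 2 * z ^ d + b * ∑ j ∈ Finset.range (d + 1), z ^ j := by
  unfold Bl
  simp only [map_add, map_mul, map_pow, aeval_X, map_sum, aeval_C]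
  simp

theorem Bl_coeff (b d k : ℕ) : (Bl b d).coeff k = (if k = d then 2 else 0) + b * (if k ≤ d then 1 else 0) := by
  unfold Bl
  rw [coeff_add, coeff_C_mul, coeff_C_mul, coeff_X_pow, finsetSum_coeff]
  congr 1
  · split_ifs <;> simp
  · congr 1
    simp only [coeff_X_pow]
    rw [Finset.sum_ite_eq]
    simp only [Finset.mem_range, Nat.lt_succ_iff]

theorem Bl_deg (b d : ℕ) : (Bl b d).natDegree = d ∧ (Bl b d).leadingCoeff = b + 2 := by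
  have h1 : (Bl b d).coeff d = b + 2 := by
    rw [Bl_coeff, if_pos rfl, if_pos le_rfl]; ring
  have h2 : (Bl b d).natDegree = d := by
    apply natDegree_eq_of_le_of_coeff_ne_zero
    · rw [natDegree_le_iff_coeff_eq_zero]
      intro k hk
      rw [Bl_coeff, if_neg (by omega), if_neg (by omega)]
      simp
    · rw [h1]; omega
  exact ⟨h2, by rw [leadingCoeff, h2, h1]⟩

theorem Bl_one (b d : ℕ) : (Bl b d).eval 1 = 2 + b * (d + 1) := by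
  unfold Bl
  simp [eval_finset_sum]

/-- lower bound outside the unit disc -/
theorem Bl_low (b d : ℕ) (z : ℂ) (hz : 1 ≤ ‖z‖) : ‖z‖ ^ d * ‖z - 1‖ ≤ ‖aeval z (Bl b (d + 1))‖ := by
  rcases eq_or_lt_of_le (norm_nonneg (z - 1)) with h | h
  · rw [← h, mul_zero]; exact norm_nonneg _
  have hz0 : z ≠ 0 := by
    intro h0
    rw [h0, norm_zero] at hz
    linarith
  obtain ⟨w, hw⟩ : ∃ w : ℂ, w = z⁻¹ := ⟨_, rfl⟩
  have hzw : z * w = 1 := by rw [hw]; exact mul_inv_cancel₀ hz0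
  have hwn : ‖w‖ ≤ 1 := by
    rw [hw, norm_inv]
    exact inv_le_one_of_one_le₀ hz
  have h1 : (z - 1) * aeval z (Bl b (d + 1)) = z ^ (d + 2) * (2 * (1 - w) + b * (1 - w ^ (d + 2))) := by
    have e1 : (∑ j ∈ Finset.range (d + 1 + 1), z ^ j) * (z - 1) = z ^ (d + 2) - 1 := geom_sum_mul z (d + 2)
    have e2 : z ^ (d + 2) * w ^ (d + 2) = 1 := by rw [← mul_pow, hzw, one_pow]
    have e3 : z ^ (d + 2) * w = z ^ (d + 1) := by
      rw [pow_succ z (d + 1), mul_assoc, hzw, mul_one]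
    rw [Bl_aeval]
    linear_combination (b : ℂ) * e1 + (b : ℂ) * e2 + 2 * e3
  have h2 : ‖1 - w‖ ^ 2 ≤ ‖2 * (1 - w) + b * (1 - w ^ (d + 2))‖ := by
    have e1 : (2 * (1 - w) + b * (1 - w ^ (d + 2)) : ℂ).re = 2 * (1 - w.re) + b * (1 - (w ^ (d + 2)).re) := by
      simp
    have e2 : (w ^ (d + 2)).re ≤ 1 := by
      refine (Complex.re_le_norm _).trans ?_
      rw [norm_pow]
      exact pow_le_one₀ (norm_nonneg _) hwn
    have e3 : ‖1 - w‖ ^ 2 ≤ 2 * (1 - w.re) := by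
      have e4 : ‖1 - w‖ ^ 2 = (1 - w.re) ^ 2 + w.im ^ 2 := by
        rw [← Complex.normSq_eq_norm_sq, Complex.normSq_apply]
        simp
        ring
      have e5 : ‖w‖ ^ 2 = w.re ^ 2 + w.im ^ 2 := by
        rw [← Complex.normSq_eq_norm_sq, Complex.normSq_apply]
        ring
      have e6 : ‖w‖ ^ 2 ≤ 1 := pow_le_one₀ (norm_nonneg _) hwn
      nlinarith
    have e7 : (0 : ℝ) ≤ b * (1 - (w ^ (d + 2)).re) := mul_nonneg (Nat.cast_nonneg b) (by linarith)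
    refine le_trans ?_ (Complex.re_le_norm _)
    rw [e1]
    linarith
  have h3 : ‖z‖ * ‖1 - w‖ = ‖z - 1‖ := by
    rw [← norm_mul]
    congr 1
    linear_combination - hzw
  have h4 : ‖z - 1‖ * ‖aeval z (Bl b (d + 1))‖ = ‖z‖ ^ (d + 2) * ‖2 * (1 - w) + b * (1 - w ^ (d + 2))‖ := by
    rw [← norm_mul, h1, norm_mul, norm_pow]
  have h5 : ‖z - 1‖ * (‖z‖ ^ d * ‖z - 1‖) ≤ ‖z - 1‖ * ‖aeval z (Bl b (d + 1))‖ := by
    rw [h4]
    calc ‖z - 1‖ * (‖z‖ ^ d * ‖z - 1‖) = ‖z‖ ^ (d + 2) * ‖1 - w‖ ^ 2 := by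
          rw [← h3]; ring
      _ ≤ _ := mul_le_mul_of_nonneg_left h2 (by positivity)
  exact le_of_mul_le_mul_left h5 h

theorem Bl_low1 (b d : ℕ) (hd : 1 ≤ d) (z : ℂ) (hz : 1 ≤ ‖z‖) : ‖z - 1‖ ≤ ‖aeval z (Bl b d)‖ := by
  obtain ⟨k, rfl⟩ : ∃ k, d = k + 1 := ⟨d - 1, by omega⟩
  refine le_trans ?_ (Bl_low b k z hz)
  have h1 : (1 : ℝ) ≤ ‖z‖ ^ k := one_le_pow₀ hz
  have h2 : 0 ≤ ‖z - 1‖ := norm_nonneg _
  nlinarith

theorem Bl_diff (b d e : ℕ) (z : ℂ) : aeval z (Bl b (d + e)) - z ^ e * aeval z (Bl b d) = b * ∑ j ∈ Finset.range e, z ^ j := by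
  rw [Bl_aeval, Bl_aeval]
  have h1 : (∑ j ∈ Finset.range (d + e + 1), z ^ j) = (∑ j ∈ Finset.range e, z ^ j) + z ^ e * ∑ j ∈ Finset.range (d + 1), z ^ j := by
    rw [show d + e + 1 = e + (d + 1) by omega, Finset.sum_range_add, Finset.mul_sum]
    congr 1
    apply Finset.sum_congr rfl
    intro j _
    rw [pow_add]
  rw [h1, pow_add]
  ring

theorem Bl_pair (b d : ℕ) (hd : 1 ≤ d) (z : ℂ) (hz : 1 ≤ ‖z‖) :
    ‖z - 1‖ * (b / 2) ≤ ‖aeval z (Bl b d)‖ * ‖aeval z (Bl b (d + 1))‖ := by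
  have h1 := Bl_diff b d 1 z
  have h2 : (b : ℝ) ≤ ‖aeval z (Bl b (d + 1))‖ + ‖z‖ * ‖aeval z (Bl b d)‖ := by
    have e1 : (b : ℂ) = aeval z (Bl b (d + 1)) - z * aeval z (Bl b d) := by
      rw [pow_one] at h1
      rw [h1]
      simp
    have e2 : (b : ℝ) = ‖(b : ℂ)‖ := by simp
    rw [e2, e1, ← norm_mul]
    exact norm_sub_le _ _
  have h3 := Bl_low b d z hz
  have h4 := Bl_low1 b d hd z hz
  have h5 : ‖z‖ * ‖z - 1‖ ≤ ‖aeval z (Bl b (d + 1))‖ := by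
    refine le_trans ?_ h3
    apply mul_le_mul_of_nonneg_right _ (norm_nonneg _)
    calc ‖z‖ = ‖z‖ ^ 1 := (pow_one _).symm
      _ ≤ ‖z‖ ^ d := pow_le_pow_right₀ hz hd
  obtain ⟨x, hx⟩ : ∃ x : ℝ, x = ‖aeval z (Bl b (d + 1))‖ := ⟨_, rfl⟩
  obtain ⟨y, hy⟩ : ∃ y : ℝ, y = ‖aeval z (Bl b d)‖ := ⟨_, rfl⟩
  obtain ⟨s, hs⟩ : ∃ s : ℝ, s = ‖z‖ := ⟨_, rfl⟩
  obtain ⟨t, ht⟩ : ∃ t : ℝ, t = ‖z - 1‖ := ⟨_, rfl⟩
  rw [← hx, ← hy, ← hs] at h2
  rw [← hs, ← hx, ← ht] at h5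
  rw [← hy, ← ht] at h4
  rw [← hs] at hz
  rw [← hx, ← hy, ← ht]
  have ht0 : 0 ≤ t := by rw [ht]; exact norm_nonneg _
  have hy0 : 0 ≤ y := by rw [hy]; exact norm_nonneg _
  rcases le_or_gt ((b : ℝ) / 2) x with h | h
  · calc t * (b / 2) ≤ y * (b / 2) := mul_le_mul_of_nonneg_right h4 (by positivity)
      _ ≤ y * x := mul_le_mul_of_nonneg_left h hy0
  · have h6 : (b : ℝ) / 2 ≤ s * y := by linarith
    calc t * (b / 2) ≤ t * (s * y) := mul_le_mul_of_nonneg_left h6 ht0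
      _ = y * (s * t) := by ring
      _ ≤ y * x := mul_le_mul_of_nonneg_left h5 hy0

theorem pow_near (z : ℂ) (j : ℕ) : ‖z ^ j - 1‖ ≤ (1 + ‖z - 1‖) ^ j - 1 := by
  have hz : ‖z‖ ≤ 1 + ‖z - 1‖ := by
    have := norm_add_le (z - 1) 1
    simp at this
    linarith
  induction j with
  | zero => simp
  | succ j ih =>
    have e1 : z ^ (j + 1) - 1 = z * (z ^ j - 1) + (z - 1) := by ring
    rw [e1]
    refine (norm_add_le _ _).trans ?_
    rw [norm_mul]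
    have h1 : ‖z‖ * ‖z ^ j - 1‖ ≤ (1 + ‖z - 1‖) * ((1 + ‖z - 1‖) ^ j - 1) :=
      mul_le_mul hz ih (norm_nonneg _) (by positivity)
    calc ‖z‖ * ‖z ^ j - 1‖ + ‖z - 1‖ ≤ (1 + ‖z - 1‖) * ((1 + ‖z - 1‖) ^ j - 1) + ‖z - 1‖ := by linarith
      _ = (1 + ‖z - 1‖) ^ (j + 1) - 1 := by ring

theorem pow_small (t : ℝ) (ht : 0 ≤ t) (j : ℕ) (s : ℝ) (hs : j * t ≤ s) (hs1 : s < 1) (h1 : t ≤ 1) : (1 + t) ^ j ≤ 1 / (1 - s) := by
  have h2 : 1 - s ≤ (1 - t) ^ j := by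
    have h3 := one_add_mul_le_pow (a := -t) (by linarith) j
    have h4 : (1 - t) ^ j = (1 + -t) ^ j := by ring
    rw [h4]
    linarith
  have h5 : (1 + t) ^ j * (1 - t) ^ j ≤ 1 := by
    rw [← mul_pow]
    apply pow_le_one₀
    · nlinarith
    · nlinarith
  rw [le_div_iff₀ (by linarith)]
  calc (1 + t) ^ j * (1 - s) ≤ (1 + t) ^ j * (1 - t) ^ j := mul_le_mul_of_nonneg_left h2 (by positivity)
    _ ≤ 1 := h5

theorem Bl_two (b d e N : ℕ) (hb : 0 < b) (he : 1 ≤ e) (heN : e ≤ N) (z : ℂ) (ht : N * ‖z - 1‖ ≤ 1 / 8)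
    (h1 : ‖aeval z (Bl b d)‖ < b / 4) (h2 : ‖aeval z (Bl b (d + e))‖ < b / 4) : False := by
  have hbR : (0 : ℝ) < b := by exact_mod_cast hb
  have ht0 : 0 ≤ ‖z - 1‖ := norm_nonneg _
  have hN1 : (1 : ℝ) ≤ N := by exact_mod_cast (by omega : 1 ≤ N)
  have ht1 : ‖z - 1‖ ≤ 1 := by nlinarith
  have hj : ∀ j : ℕ, j ≤ e → ‖z ^ j - 1‖ ≤ 1 / 7 := by
    intro j hj
    have e1 := pow_near z j
    have e2 : (j : ℝ) * ‖z - 1‖ ≤ 1 / 8 := by
      refine le_trans ?_ ht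
      apply mul_le_mul_of_nonneg_right _ ht0
      exact_mod_cast (by omega : j ≤ N)
    have e3 := pow_small ‖z - 1‖ ht0 j (1 / 8) e2 (by norm_num) ht1
    norm_num at e3
    linarith
  have hze : ‖z ^ e‖ ≤ 8 / 7 := by
    have e1 := norm_add_le (z ^ e - 1) 1
    have e2 := hj e le_rfl
    simp only [sub_add_cancel, norm_one] at e1
    linarith
  have hsum : (6 / 7 : ℝ) ≤ ‖∑ j ∈ Finset.range e, z ^ j‖ := by
    have e1 : (∑ j ∈ Finset.range e, z ^ j) = e + ∑ j ∈ Finset.range e, (z ^ j - 1) := by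
      rw [Finset.sum_sub_distrib]
      simp
    have e2 : ‖∑ j ∈ Finset.range e, (z ^ j - 1)‖ ≤ e * (1 / 7) := by
      refine (norm_sum_le _ _).trans ?_
      refine (Finset.sum_le_card_nsmul (Finset.range e) _ (1 / 7) (fun j hj' => hj j (Finset.mem_range.1 hj').le)).trans ?_
      rw [Finset.card_range, nsmul_eq_mul]
    have e3 : (e : ℝ) = ‖(e : ℂ)‖ := by simp
    have e4 : ‖(e : ℂ)‖ ≤ ‖(e : ℂ) + ∑ j ∈ Finset.range e, (z ^ j - 1)‖ + ‖∑ j ∈ Finset.range e, (z ^ j - 1)‖ := by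
      have := norm_sub_le ((e : ℂ) + ∑ j ∈ Finset.range e, (z ^ j - 1)) (∑ j ∈ Finset.range e, (z ^ j - 1))
      rwa [add_sub_cancel_right] at this
    rw [e1]
    have e5 : (1 : ℝ) ≤ e := by exact_mod_cast he
    rw [← e3] at e4
    linarith
  have hd := Bl_diff b d e z
  have h3 : (b : ℝ) * (6 / 7) ≤ ‖aeval z (Bl b (d + e))‖ + 8 / 7 * ‖aeval z (Bl b d)‖ := by
    calc (b : ℝ) * (6 / 7) ≤ b * ‖∑ j ∈ Finset.range e, z ^ j‖ := mul_le_mul_of_nonneg_left hsum hbR.le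
      _ = ‖(b : ℂ) * ∑ j ∈ Finset.range e, z ^ j‖ := by rw [norm_mul]; simp
      _ = ‖aeval z (Bl b (d + e)) - z ^ e * aeval z (Bl b d)‖ := by rw [hd]
      _ ≤ ‖aeval z (Bl b (d + e))‖ + ‖z ^ e * aeval z (Bl b d)‖ := norm_sub_le _ _
      _ ≤ ‖aeval z (Bl b (d + e))‖ + 8 / 7 * ‖aeval z (Bl b d)‖ := by
        rw [norm_mul]
        have := mul_le_mul_of_nonneg_right hze (norm_nonneg (aeval z (Bl b d)))
        linarith
  linarith

theorem Bl_near (b d : ℕ) (z : ℂ) (hd : 1 ≤ d) (ht : d * ‖z - 1‖ ≤ 1 / 4) : 1 ≤ ‖aeval z (Bl b d)‖ := by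
  have ht0 : 0 ≤ ‖z - 1‖ := norm_nonneg _
  have hd1 : (1 : ℝ) ≤ d := by exact_mod_cast hd
  have ht1 : ‖z - 1‖ ≤ 1 := by nlinarith
  have hj : ∀ j : ℕ, j ≤ d → ‖z ^ j - 1‖ ≤ 1 / 3 := by
    intro j hj
    have e1 := pow_near z j
    have e2 : (j : ℝ) * ‖z - 1‖ ≤ 1 / 4 := by
      refine le_trans ?_ ht
      apply mul_le_mul_of_nonneg_right _ ht0
      exact_mod_cast hj
    have e3 := pow_small ‖z - 1‖ ht0 j (1 / 4) e2 (by norm_num) ht1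
    norm_num at e3
    linarith
  have e1 : aeval z (Bl b d) = (2 + b * (d + 1) : ℂ) + (2 * (z ^ d - 1) + b * ∑ j ∈ Finset.range (d + 1), (z ^ j - 1)) := by
    rw [Bl_aeval, Finset.sum_sub_distrib]
    simp
    ring
  have e2 : ‖(2 * (z ^ d - 1) + b * ∑ j ∈ Finset.range (d + 1), (z ^ j - 1) : ℂ)‖ ≤ 2 * (1 / 3) + b * ((d + 1) * (1 / 3)) := by
    refine (norm_add_le _ _).trans ?_
    rw [norm_mul, norm_mul]
    have e3 : ‖∑ j ∈ Finset.range (d + 1), (z ^ j - 1)‖ ≤ (d + 1) * (1 / 3) := by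
      refine (norm_sum_le _ _).trans ?_
      refine (Finset.sum_le_card_nsmul (Finset.range (d + 1)) _ (1 / 3) (fun j hj' => hj j (by have := Finset.mem_range.1 hj'; omega))).trans ?_
      rw [Finset.card_range, nsmul_eq_mul]
      push_cast
      linarith
    have e4 : ‖(2 : ℂ)‖ = 2 := by simp
    have e5 : ‖(b : ℂ)‖ = b := by simp
    rw [e4, e5]
    have e6 := hj d le_rfl
    have e7 : (b : ℝ) * ‖∑ j ∈ Finset.range (d + 1), (z ^ j - 1)‖ ≤ b * ((d + 1) * (1 / 3)) :=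
      mul_le_mul_of_nonneg_left e3 (Nat.cast_nonneg b)
    linarith
  have e8 : ‖(2 + b * (d + 1) : ℂ)‖ = 2 + b * (d + 1) := by
    have : (2 + b * (d + 1) : ℂ) = (((2 + b * (d + 1) : ℕ) : ℝ) : ℂ) := by push_cast; ring
    rw [this, Complex.norm_real, Real.norm_of_nonneg (Nat.cast_nonneg _)]
    push_cast
    ring
  have e9 : ‖(2 + b * (d + 1) : ℂ)‖ ≤ ‖aeval z (Bl b d)‖ + ‖(2 * (z ^ d - 1) + b * ∑ j ∈ Finset.range (d + 1), (z ^ j - 1) : ℂ)‖ := by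
    have := norm_sub_le (aeval z (Bl b d)) (2 * (z ^ d - 1) + b * ∑ j ∈ Finset.range (d + 1), (z ^ j - 1) : ℂ)
    rw [e1, add_sub_cancel_right, ← e1] at this
    exact this
  rw [e8] at e9
  have e10 : (0 : ℝ) ≤ b * (d + 1) := by positivity
  linarith

end Pool.Agent.H78SZ
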