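import Pool.Agent.helper78.SZ.T4

set_option autoImplicit false

namespace Pool.Agent.H78SZ

open Polynomial

/-- the product of `2 M` blocks of consecutive degrees -/
noncomputable def Gp (B D M : ℕ) : ℤ[X] := ∏ i ∈ Finset.range (2 * M), Bl (4 * B) (D + i)

theorem Gp_norm (B D M : ℕ) (z : ℂ) : ‖aeval z (Gp B D M)‖ = ∏ i ∈ Finset.range (2 * M), ‖aeval z (Bl (4 * B) (D + i))‖ := by
  unfold Gp
  rw [map_prod, norm_prod]

theorem Gp_min (B D M : ℕ) (hM : 1 ≤ M) (hD : 1 ≤ D) (hB : 8 * M ≤ B) (hDB : (D + 2 * M) * 4 ≤ B ^ (2 * M - 1)) (z : ℂ)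
    (hz : 1 ≤ ‖z‖) : 1 ≤ ‖aeval z (Gp B D M)‖ := by
  rw [Gp_norm]
  obtain ⟨t, ht⟩ : ∃ t : ℝ, t = ‖z - 1‖ := ⟨_, rfl⟩
  have ht0 : 0 ≤ t := by rw [ht]; exact norm_nonneg _
  have hBR : (1 : ℝ) ≤ B := by exact_mod_cast (by omega : 1 ≤ B)
  have hMR : (1 : ℝ) ≤ M := by exact_mod_cast hM
  have hBM : (8 : ℝ) * M ≤ B := by exact_mod_cast hB
  rcases le_or_gt 1 (t * (2 * B)) with hA | hA
  · -- pairs
    have key : ∀ K : ℕ, 1 ≤ ∏ i ∈ Finset.range (2 * K), ‖aeval z (Bl (4 * B) (D + i))‖ := by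
      intro K
      induction K with
      | zero => simp
      | succ K ih =>
        rw [show 2 * (K + 1) = 2 * K + 1 + 1 by ring, Finset.prod_range_succ, Finset.prod_range_succ, mul_assoc]
        have h1 := Bl_pair (4 * B) (D + 2 * K) (by omega) z hz
        rw [← ht] at h1
        have h2 : t * (((4 * B : ℕ) : ℝ) / 2) = t * (2 * B) := by push_cast; ring
        rw [h2] at h1
        exact one_le_mul_of_one_le_of_one_le ih (le_trans hA h1)
    exact key M
  · rcases le_or_gt 1 (t * (B : ℝ) ^ (2 * M - 1)) with hC | hC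
    · -- at most one small factor
      have hNt : ((2 * M : ℕ) : ℝ) * ‖z - 1‖ ≤ 1 / 8 := by
        rw [← ht]
        push_cast
        nlinarith
      have h4 : (((4 * B : ℕ) : ℝ)) / 4 = B := by push_cast; ring
      by_cases hbad : ∃ i ∈ Finset.range (2 * M), ‖aeval z (Bl (4 * B) (D + i))‖ < B
      · obtain ⟨i, hi, hib⟩ := hbad
        rw [← Finset.mul_prod_erase (Finset.range (2 * M)) _ hi]
        have h1 : ∀ j ∈ (Finset.range (2 * M)).erase i, (B : ℝ) ≤ ‖aeval z (Bl (4 * B) (D + j))‖ := by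
          intro j hj
          rw [Finset.mem_erase, Finset.mem_range] at hj
          rw [Finset.mem_range] at hi
          by_contra hcon
          rw [not_le] at hcon
          rcases lt_or_gt_of_ne hj.1 with h | h
          · refine Bl_two (4 * B) (D + j) (i - j) (2 * M) (by omega) (by omega) (by omega) z hNt ?_ ?_
            · rw [h4]; exact hcon
            · rw [h4, show D + j + (i - j) = D + i by omega]; exact hib
          · refine Bl_two (4 * B) (D + i) (j - i) (2 * M) (by omega) (by omega) (by omega) z hNt ?_ ?_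
            · rw [h4]; exact hib
            · rw [h4, show D + i + (j - i) = D + j by omega]; exact hcon
        have h2 : (B : ℝ) ^ (2 * M - 1) ≤ ∏ j ∈ (Finset.range (2 * M)).erase i, ‖aeval z (Bl (4 * B) (D + j))‖ := by
          have h3 := Finset.prod_le_prod (s := (Finset.range (2 * M)).erase i) (f := fun _ => (B : ℝ))
            (g := fun j => ‖aeval z (Bl (4 * B) (D + j))‖) (fun j _ => by positivity) h1
          rw [Finset.prod_const, Finset.card_erase_of_mem hi, Finset.card_range] at h3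
          exact h3
        have h5 : t ≤ ‖aeval z (Bl (4 * B) (D + i))‖ := by
          rw [ht]; exact Bl_low1 (4 * B) (D + i) (by omega) z hz
        exact le_trans hC (mul_le_mul h5 h2 (by positivity) (norm_nonneg _))
      · push Not at hbad
        have h3 := Finset.prod_le_prod (s := Finset.range (2 * M)) (f := fun _ => (1 : ℝ))
          (g := fun j => ‖aeval z (Bl (4 * B) (D + j))‖) (fun j _ => zero_le_one) (fun j hj => le_trans hBR (hbad j hj))
        rwa [Finset.prod_const_one] at h3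
    · -- very close to one
      have h3 := Finset.prod_le_prod (s := Finset.range (2 * M)) (f := fun _ => (1 : ℝ))
        (g := fun j => ‖aeval z (Bl (4 * B) (D + j))‖) (fun j _ => zero_le_one) (fun j hj => by
          apply Bl_near (4 * B) (D + j) z (by omega)
          rw [← ht]
          have h1 : (((D + j : ℕ) : ℝ)) * 4 ≤ (B : ℝ) ^ (2 * M - 1) := by
            rw [Finset.mem_range] at hj
            exact_mod_cast (by omega : (D + j) * 4 ≤ B ^ (2 * M - 1))
          nlinarith [mul_le_mul_of_nonneg_left h1 ht0])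
      rwa [Finset.prod_const_one] at h3

theorem Gp_pos (B D M : ℕ) (x : ℝ) (hx : 1 ≤ x) : 0 < aeval x (Gp B D M) := by
  unfold Gp
  rw [map_prod]
  apply Finset.prod_pos
  intro i _
  rw [Bl_aeval]
  positivity

theorem Gp_data (B D M : ℕ) (hM : 1 ≤ M) (hD : 1 ≤ D) : 1 ≤ (Gp B D M).natDegree ∧ (Gp B D M).leadingCoeff = (4 * B + 2) ^ (2 * M) ∧
    (4 * B * D : ℤ) ^ (2 * M) ≤ (Gp B D M).eval 1 := by
  have hne : ∀ i : ℕ, Bl (4 * B) (D + i) ≠ 0 := by
    intro i h
    have h1 := (Bl_deg (4 * B) (D + i)).1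
    rw [h, natDegree_zero] at h1
    omega
  refine ⟨?_, ?_, ?_⟩
  · unfold Gp
    rw [natDegree_prod _ _ (fun i _ => hne i)]
    have h1 : (Bl (4 * B) (D + 0)).natDegree ≤ ∑ i ∈ Finset.range (2 * M), (Bl (4 * B) (D + i)).natDegree :=
      Finset.single_le_sum (f := fun i => (Bl (4 * B) (D + i)).natDegree) (fun i _ => Nat.zero_le _) (Finset.mem_range.2 (by omega))
    rw [(Bl_deg (4 * B) (D + 0)).1] at h1
    omega
  · unfold Gp
    rw [leadingCoeff_prod]
    have h1 : ∀ i ∈ Finset.range (2 * M), (Bl (4 * B) (D + i)).leadingCoeff = 4 * B + 2 := by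
      intro i _
      rw [(Bl_deg (4 * B) (D + i)).2]
      push_cast
      ring
    rw [Finset.prod_congr rfl h1, Finset.prod_const, Finset.card_range]
  · unfold Gp
    rw [eval_prod]
    have h1 := Finset.prod_le_prod (s := Finset.range (2 * M)) (f := fun _ => (4 * B * D : ℤ))
      (g := fun i => eval 1 (Bl (4 * B) (D + i))) (fun i _ => by positivity) (fun i _ => by
        rw [Bl_one]
        push_cast
        have e1 : (0 : ℤ) ≤ 4 * B * i := by positivity
        have e2 : (0 : ℤ) ≤ 4 * B := by positivity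
        nlinarith)
    rwa [Finset.prod_const, Finset.card_range] at h1

/-- For every exponent `A` there is an integer polynomial without roots outside the open unit disc, whose value at `1` exceeds the `A`-th power
of the leading coefficient. -/
theorem exists_G (A : ℕ) : ∃ G : ℤ[X], 1 ≤ G.natDegree ∧ 0 < G.leadingCoeff ∧ (∀ x : ℝ, 1 ≤ x → 0 < aeval x G) ∧
    (∀ z : ℂ, 1 ≤ ‖z‖ → 1 ≤ ‖aeval z G‖) ∧ 2 * G.leadingCoeff ^ A < G.eval 1 := by
  obtain ⟨M, hM⟩ : ∃ M : ℕ, M = A + 1 := ⟨_, rfl⟩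
  obtain ⟨B₁, hB₁⟩ : ∃ B₁ : ℕ, B₁ = 2 * M * 5 ^ (A + 1) := ⟨_, rfl⟩
  obtain ⟨B, hB⟩ : ∃ B : ℕ, B = 8 * B₁ := ⟨_, rfl⟩
  obtain ⟨D, hD⟩ : ∃ D : ℕ, D = B₁ * B ^ (2 * A) := ⟨_, rfl⟩
  have h5 : 1 ≤ 5 ^ (A + 1) := Nat.one_le_pow _ _ (by norm_num)
  have hB₁M : 2 * M ≤ B₁ := by rw [hB₁]; exact Nat.le_mul_of_pos_right _ h5
  have hBpos : 1 ≤ B := by omega
  have hBA : 1 ≤ B ^ (2 * A) := Nat.one_le_pow _ _ hBpos
  have hD1 : 1 ≤ D := by
    rw [hD]
    exact Nat.mul_pos (by omega) hBA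
  have h8D : 8 * D = B ^ (2 * A + 1) := by
    rw [hD, pow_succ, hB]; ring
  have hBle : B ≤ B ^ (2 * A + 1) := Nat.le_self_pow (by omega) B
  have hM1 : 2 * M - 1 = 2 * A + 1 := by omega
  obtain ⟨a1, a2, a3⟩ := Gp_data B D M (by omega) hD1
  refine ⟨Gp B D M, a1, ?_, Gp_pos B D M, Gp_min B D M (by omega) hD1 (by omega) ?_, ?_⟩
  · rw [a2]; positivity
  · rw [hM1]; omega
  · rw [a2]
    refine lt_of_lt_of_le ?_ a3
    have h1 : 2 * (4 * B + 2) ^ A ≤ 4 * B * D := by
      have e1 : (4 * B + 2) ^ A ≤ 5 ^ A * B ^ A := by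
        rw [← mul_pow]
        exact Nat.pow_le_pow_left (by omega) A
      have e2 : 4 * 5 ^ A ≤ B := by
        rw [hB, hB₁, pow_succ]
        have e0 : 1 * 5 ^ A ≤ M * 5 ^ A := Nat.mul_le_mul_right _ (by omega)
        calc 4 * 5 ^ A ≤ 80 * (M * 5 ^ A) := by omega
          _ = 8 * (2 * M * (5 ^ A * 5)) := by ring
      have e3 : 4 * (5 ^ A * B ^ A) ≤ B * B ^ (2 * A + 1) := by
        calc 4 * (5 ^ A * B ^ A) = (4 * 5 ^ A) * B ^ A := by ring
          _ ≤ B * B ^ (2 * A + 1) := Nat.mul_le_mul e2 (Nat.pow_le_pow_right hBpos (by omega))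
      have e4 : 2 * (4 * B * D) = B * B ^ (2 * A + 1) := by rw [← h8D]; ring
      omega
    have h2 : (2 * (4 * B + 2) ^ A) ^ (2 * M) ≤ (4 * B * D) ^ (2 * M) := Nat.pow_le_pow_left h1 _
    have h3 : 2 * ((4 * B + 2) ^ (2 * M)) ^ A < (2 * (4 * B + 2) ^ A) ^ (2 * M) := by
      rw [mul_pow, ← pow_mul, ← pow_mul, mul_comm (2 * M) A]
      apply Nat.mul_lt_mul_of_pos_right _ (by positivity)
      calc 2 = 2 ^ 1 := by norm_num
        _ < 2 ^ (2 * M) := Nat.pow_lt_pow_right (by norm_num) (by omega)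
    exact_mod_cast lt_of_lt_of_le h3 h2

end Pool.Agent.H78SZ
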