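import Mathlib
import Pool.Agent.helper78.SZ.T4

set_option autoImplicit false

namespace Pool.Agent.H78SZ

open Polynomial

theorem pow_gen (a : ℂ) (x : ℝ) (ha : ‖a - 1‖ ≤ x) (j : ℕ) : ‖a ^ j - 1‖ ≤ (1 + x) ^ j - 1 := by
  refine (pow_near a j).trans ?_
  have h1 : 0 ≤ ‖a - 1‖ := norm_nonneg _
  have h2 : (1 + ‖a - 1‖) ^ j ≤ (1 + x) ^ j := pow_le_pow_left₀ (by linarith) (by linarith) j
  linarith

/-- `(1 + x) ^ k - 1 ≤ 2 k x` for small `x` -/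
theorem pow_lin (x : ℝ) (hx : 0 ≤ x) (k : ℕ) (hk : k * x ≤ 1 / 2) : (1 + x) ^ k - 1 ≤ 2 * (k * x) := by
  rcases Nat.eq_zero_or_pos k with h0 | h0
  · subst h0; simp
  · have h1 : (1 : ℝ) ≤ k := by exact_mod_cast h0
    have h2 : x ≤ 1 := by nlinarith
    have h3 := pow_small x hx k (k * x) le_rfl (by linarith) h2
    have h4 : 1 / (1 - k * x) ≤ 1 + 2 * (k * x) := by
      rw [div_le_iff₀ (by linarith)]
      have h5 : 0 ≤ (k : ℝ) * x := by positivity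
      nlinarith
    linarith

/-- local injectivity of `(z - 1) z ^ r G ^ m` -/
theorem uniq (z w gz gw : ℂ) (r m : ℕ) (L δ : ℝ) (hL : 1 ≤ L) (hz : 1 ≤ ‖z‖) (hg : 1 ≤ ‖gz‖) (hLip : ‖gw - gz‖ ≤ L * ‖w - z‖)
    (hzδ : ‖z - 1‖ ≤ δ) (hwδ : ‖w - 1‖ ≤ δ) (hδ : 4 * ((r + m : ℕ) : ℝ) * L * δ ≤ 1)
    (h : (z - 1) * z ^ r * gz ^ m = (w - 1) * w ^ r * gw ^ m) : z = w := by
  have hz0 : z ≠ 0 := by
    intro h0
    rw [h0, norm_zero] at hz
    linarith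
  have hg0 : gz ≠ 0 := by
    intro h0
    rw [h0, norm_zero] at hg
    linarith
  obtain ⟨x, hx⟩ : ∃ x : ℝ, x = L * ‖w - z‖ := ⟨_, rfl⟩
  have hx0 : 0 ≤ x := by rw [hx]; positivity
  have hwz : ‖w - z‖ ≤ 2 * δ := by
    have e1 : w - z = (w - 1) - (z - 1) := by ring
    rw [e1]
    refine (norm_sub_le _ _).trans ?_
    linarith
  have ha : ‖w / z - 1‖ ≤ x := by
    have e1 : w / z - 1 = (w - z) / z := by field_simp
    rw [e1, norm_div, div_le_iff₀ (by linarith)]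
    have e2 : ‖w - z‖ ≤ x := by rw [hx]; nlinarith [norm_nonneg (w - z)]
    nlinarith
  have hb : ‖gw / gz - 1‖ ≤ x := by
    have e1 : gw / gz - 1 = (gw - gz) / gz := by field_simp
    rw [e1, norm_div, div_le_iff₀ (by linarith)]
    have e2 : ‖gw - gz‖ ≤ x := by rw [hx]; exact hLip
    nlinarith
  have hk : (((r + m : ℕ)) : ℝ) * x ≤ 1 / 2 := by
    rw [hx]
    have e1 : (((r + m : ℕ)) : ℝ) * (L * ‖w - z‖) ≤ ((r + m : ℕ) : ℝ) * (L * (2 * δ)) := by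
      apply mul_le_mul_of_nonneg_left _ (Nat.cast_nonneg _)
      exact mul_le_mul_of_nonneg_left hwz (by linarith)
    nlinarith
  have hab : ‖(w / z) ^ r * (gw / gz) ^ m - 1‖ ≤ (1 + x) ^ (r + m) - 1 := by
    have e1 : (w / z) ^ r * (gw / gz) ^ m - 1 = ((w / z) ^ r - 1) * (gw / gz) ^ m + ((gw / gz) ^ m - 1) := by ring
    have e2 := pow_gen _ x ha r
    have e3 := pow_gen _ x hb m
    have e4 : ‖(gw / gz) ^ m‖ ≤ (1 + x) ^ m := by
      have e5 := norm_add_le ((gw / gz) ^ m - 1) 1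
      simp only [sub_add_cancel, norm_one] at e5
      linarith
    rw [e1]
    refine (norm_add_le _ _).trans ?_
    rw [norm_mul]
    have e6 : ‖(w / z) ^ r - 1‖ * ‖(gw / gz) ^ m‖ ≤ ((1 + x) ^ r - 1) * (1 + x) ^ m :=
      mul_le_mul e2 e4 (norm_nonneg _) (le_trans (norm_nonneg _) e2)
    calc ‖(w / z) ^ r - 1‖ * ‖(gw / gz) ^ m‖ + ‖(gw / gz) ^ m - 1‖ ≤ ((1 + x) ^ r - 1) * (1 + x) ^ m + ((1 + x) ^ m - 1) := by linarith
      _ = (1 + x) ^ (r + m) - 1 := by rw [pow_add]; ring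
  have hlin := pow_lin x hx0 (r + m) hk
  have heq : z - w = (w - 1) * ((w / z) ^ r * (gw / gz) ^ m - 1) := by
    have e1 : z - 1 = (w - 1) * ((w / z) ^ r * (gw / gz) ^ m) := by
      have e2 : z ^ r * gz ^ m ≠ 0 := mul_ne_zero (pow_ne_zero _ hz0) (pow_ne_zero _ hg0)
      apply mul_right_cancel₀ e2
      rw [div_pow, div_pow]
      have e3 : w ^ r / z ^ r * (gw ^ m / gz ^ m) * (z ^ r * gz ^ m) = w ^ r * gw ^ m := by
        have := pow_ne_zero r hz0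
        have := pow_ne_zero m hg0
        field_simp
      rw [mul_assoc (w - 1), e3]
      linear_combination h
    linear_combination e1
  have hfin : ‖z - w‖ ≤ δ * (2 * (((r + m : ℕ) : ℝ) * x)) := by
    rw [heq, norm_mul]
    exact mul_le_mul hwδ (le_trans hab hlin) (norm_nonneg _) (le_trans (norm_nonneg _) hwδ)
  have hsym : ‖w - z‖ = ‖z - w‖ := norm_sub_rev _ _
  have h2 : ‖z - w‖ ≤ 1 / 2 * ‖z - w‖ := by
    refine le_trans hfin ?_
    rw [hx, hsym]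
    have e1 : δ * (2 * (((r + m : ℕ) : ℝ) * (L * ‖z - w‖))) = (4 * ((r + m : ℕ) : ℝ) * L * δ) * (1 / 2 * ‖z - w‖) := by ring
    rw [e1]
    have e2 : 0 ≤ 1 / 2 * ‖z - w‖ := by positivity
    nlinarith
  have h3 : ‖z - w‖ = 0 := by
    have := norm_nonneg (z - w)
    linarith
  exact sub_eq_zero.1 (norm_eq_zero.1 h3)

/-- a polynomial is Lipschitz near `1` -/
theorem lipG (G : ℤ[X]) : ∃ L : ℝ, 1 ≤ L ∧ ∃ ε > 0, ∀ z w : ℂ, ‖z - 1‖ < ε → ‖w - 1‖ < ε → ‖aeval w G - aeval z G‖ ≤ L * ‖w - z‖ := by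
  have h1 : ContDiff ℂ 1 (fun z : ℂ => aeval z G) := Polynomial.contDiff_aeval G 1
  obtain ⟨K, t, ht, hK⟩ := (h1.contDiffAt (x := (1 : ℂ))).exists_lipschitzOnWith
  obtain ⟨ε, hε, hb⟩ := Metric.mem_nhds_iff.1 ht
  refine ⟨max 1 K, le_max_left _ _, ε, hε, fun z w hz hw => ?_⟩
  have hz' : z ∈ t := hb (by rw [Metric.mem_ball, dist_eq_norm]; exact hz)
  have hw' : w ∈ t := hb (by rw [Metric.mem_ball, dist_eq_norm]; exact hw)
  have h2 := hK.dist_le_mul w hw' z hz'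
  rw [dist_eq_norm, dist_eq_norm] at h2
  exact h2.trans (mul_le_mul_of_nonneg_right (le_max_right _ _) (norm_nonneg _))

end Pool.Agent.H78SZ
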