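import Pool.Agent.helper78.SZ.T2
import Pool.Agent.helper78.SZ.T5
import Pool.Agent.helper78.SZ.T6

set_option autoImplicit false

namespace Pool.Agent.H78SZ

open Polynomial

/-- the polynomial `p (X - 1) X ^ r G ^ m - 1` -/
theorem polyP (G : ℤ[X]) (hl : 0 < G.leadingCoeff) (p : ℕ) (hp : p.Prime) (hpl : G.leadingCoeff < p) (r m : ℕ) :
    (C (p : ℤ) * ((X - C 1) * X ^ r * G ^ m) - C 1).natDegree = m * G.natDegree + r + 1 ∧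
    (C (p : ℤ) * ((X - C 1) * X ^ r * G ^ m) - C 1).leadingCoeff = p * G.leadingCoeff ^ m ∧
    Irreducible (C (p : ℤ) * ((X - C 1) * X ^ r * G ^ m) - C 1) := by
  have hG0 : G ≠ 0 := by
    intro h
    rw [h, leadingCoeff_zero] at hl
    exact lt_irrefl _ hl
  have hX1 : (X - C (1 : ℤ)) ≠ 0 := X_sub_C_ne_zero 1
  have hXr : (X : ℤ[X]) ^ r ≠ 0 := pow_ne_zero _ X_ne_zero
  have hGm : G ^ m ≠ 0 := pow_ne_zero _ hG0
  have e1 : ((X - C (1 : ℤ)) * X ^ r * G ^ m).natDegree = m * G.natDegree + r + 1 := by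
    rw [natDegree_mul (mul_ne_zero hX1 hXr) hGm, natDegree_mul hX1 hXr, natDegree_X_sub_C, natDegree_X_pow, natDegree_pow]
    ring
  have e2 : ((X - C (1 : ℤ)) * X ^ r * G ^ m).leadingCoeff = G.leadingCoeff ^ m := by
    rw [leadingCoeff_mul, leadingCoeff_mul, leadingCoeff_X_sub_C, leadingCoeff_X_pow, leadingCoeff_pow, one_mul, one_mul]
  have e3 : ((X - C (1 : ℤ)) * X ^ r * G ^ m).eval 1 = 0 := by simp
  have hpp : Prime (p : ℤ) := Nat.prime_iff_prime_int.1 hp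
  have e4 : ¬ (p : ℤ) ∣ ((X - C (1 : ℤ)) * X ^ r * G ^ m).leadingCoeff := by
    rw [e2]
    intro h
    have h1 := hpp.dvd_of_dvd_pow h
    have h2 := Int.le_of_dvd hl h1
    omega
  obtain ⟨a1, a2, a3⟩ := irr_gen p hp _ (by rw [e1]; omega) e4 e3
  rw [e1] at a1
  rw [e2] at a2
  exact ⟨a1, a2, a3⟩

theorem aevalP {K : Type*} [Field K] (G : ℤ[X]) (p r m : ℕ) [Algebra ℤ K] (z : K) :
    aeval z (C (p : ℤ) * ((X - C 1) * X ^ r * G ^ m) - C 1) = p * ((z - 1) * z ^ r * (aeval z G) ^ m) - 1 := by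
  simp only [map_sub, map_mul, map_pow, aeval_X, aeval_C]
  simp

theorem red (G : ℤ[X]) (A : ℕ) (hg : 1 ≤ G.natDegree) (hl : 0 < G.leadingCoeff) (hpos : ∀ x : ℝ, 1 ≤ x → 0 < aeval x G)
    (hmin : ∀ z : ℂ, 1 ≤ ‖z‖ → 1 ≤ ‖aeval z G‖) (hbig : 2 * G.leadingCoeff ^ A < G.eval 1) (c : ℝ) (hc : 0 < c) :
    ∃ n₀ : ℕ, ∀ n ≥ n₀, ∃ (P : ℤ[X]) (β : ℝ), Irreducible P ∧ P.natDegree = n ∧ 0 < P.leadingCoeff ∧ 1 < β ∧
      β ≤ 1 + c / ((P.leadingCoeff : ℝ) * (n : ℝ)) ^ A ∧ ∀ z : ℂ, (aeval z P = 0 ∧ 1 < ‖z‖) ↔ z = β := by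
  obtain ⟨ℓ, hℓ⟩ : ∃ ℓ : ℝ, ℓ = (G.leadingCoeff : ℝ) := ⟨_, rfl⟩
  obtain ⟨g, hgd⟩ : ∃ g : ℕ, g = G.natDegree := ⟨_, rfl⟩
  have hℓ0 : 0 < ℓ := by rw [hℓ]; exact_mod_cast hl
  obtain ⟨ρ, hρ⟩ : ∃ ρ : ℝ, ρ = ((G.eval 1 : ℤ) : ℝ) / 2 := ⟨_, rfl⟩
  have hρℓ : ℓ ^ A < ρ := by
    have h1 : (2 : ℝ) * ℓ ^ A < ((G.eval 1 : ℤ) : ℝ) := by
      rw [hℓ]; exact_mod_cast hbig
    rw [hρ]; linarith
  have hρ0 : 0 < ρ := lt_trans (pow_pos hℓ0 A) hρℓ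
  -- continuity at one
  have hone : aeval (1 : ℂ) G = ((G.eval 1 : ℤ) : ℂ) := by
    have h1 := aeval_algebraMap_apply_eq_algebraMap_eval (A := ℂ) (1 : ℤ) G
    simpa using h1
  obtain ⟨L, hL1, ε₁, hε₁, hLip⟩ := lipG G
  obtain ⟨ε₂, hε₂, hball₂⟩ : ∃ ε > 0, ∀ z : ℂ, ‖z - 1‖ < ε → ρ < ‖aeval z G‖ := by
    have hcont : Continuous (fun z : ℂ => ‖aeval z G‖) := (Polynomial.continuous_aeval G).norm
    have h2 : ρ < ‖aeval (1 : ℂ) G‖ := by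
      rw [hone, Complex.norm_intCast]
      have h3 : ((G.eval 1 : ℤ) : ℝ) = 2 * ρ := by rw [hρ]; ring
      rw [h3, abs_of_pos (by linarith)]
      linarith
    have h3 := (hcont.continuousAt (x := (1 : ℂ))).eventually (lt_mem_nhds h2)
    rw [Metric.eventually_nhds_iff] at h3
    obtain ⟨ε, hε, h4⟩ := h3
    exact ⟨ε, hε, fun z hz => h4 (by rwa [dist_eq_norm])⟩
  obtain ⟨ε, hεd⟩ : ∃ ε : ℝ, ε = min ε₁ ε₂ := ⟨_, rfl⟩
  have hε : 0 < ε := by rw [hεd]; exact lt_min hε₁ hε₂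
  have hball : ∀ z : ℂ, ‖z - 1‖ < ε → ρ < ‖aeval z G‖ := fun z hz => hball₂ z (lt_of_lt_of_le hz (by rw [hεd]; exact min_le_right _ _))
  have hεε : ε ≤ ε₁ := by rw [hεd]; exact min_le_left _ _
  obtain ⟨p, hpge, hp⟩ := Nat.exists_infinite_primes (⌈1 / ε⌉₊ + G.leadingCoeff.toNat + 1 + ⌈4 * ((g : ℝ) + 2) * L⌉₊)
  have hpL : 4 * ((g : ℝ) + 2) * L ≤ p := by
    refine (Nat.le_ceil _).trans ?_
    exact_mod_cast (by omega : ⌈4 * ((g : ℝ) + 2) * L⌉₊ ≤ p)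
  have hρ32 : (3 / 2 : ℝ) ≤ ρ := by
    have h1 : (1 : ℤ) ≤ G.leadingCoeff ^ A := one_le_pow₀ hl
    have h2 : (3 : ℤ) ≤ G.eval 1 := by omega
    have h3 : (3 : ℝ) ≤ ((G.eval 1 : ℤ) : ℝ) := by exact_mod_cast h2
    rw [hρ]; linarith
  have hpl : G.leadingCoeff < p := by omega
  have hp1 : 1 / ε < (p : ℝ) := by
    have h1 : (⌈1 / ε⌉₊ : ℝ) < p := by exact_mod_cast (by omega : ⌈1 / ε⌉₊ < p)
    exact lt_of_le_of_lt (Nat.le_ceil _) h1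
  have hp0 : (0 : ℝ) < p := by exact_mod_cast hp.pos
  have hp2 : 1 / (p : ℝ) < ε := by
    rw [div_lt_iff₀ hp0]
    rw [div_lt_iff₀ hε] at hp1
    linarith
  have hgR : (0 : ℝ) < g := by exact_mod_cast (by omega : 0 < g)
  obtain ⟨κ, hκ⟩ : ∃ κ : ℝ, κ = ℓ ^ A / ρ := ⟨_, rfl⟩
  have hκ0 : 0 < κ := by rw [hκ]; positivity
  have hκ1 : κ < 1 := by rw [hκ, div_lt_one hρ0]; exact hρℓ
  have hlim : Filter.Tendsto (fun n : ℕ => (n : ℝ) ^ A * κ ^ n) Filter.atTop (nhds 0) :=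
    tendsto_pow_const_mul_const_pow_of_abs_lt_one A (by rw [abs_of_pos hκ0]; exact hκ1)
  have hη : 0 < c * p * κ / ((p : ℝ) ^ A * (g : ℝ) ^ A) := by positivity
  obtain ⟨m₀, hm₀⟩ := Filter.eventually_atTop.1 (hlim.eventually (gt_mem_nhds hη))
  refine ⟨g * m₀ + 1, fun n hn => ?_⟩
  obtain ⟨m, r, hnm, hrg⟩ : ∃ m r : ℕ, n = m * g + r + 1 ∧ r < g := by
    refine ⟨(n - 1) / g, (n - 1) % g, ?_, Nat.mod_lt _ (by omega)⟩
    have h1 := Nat.div_add_mod (n - 1) g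
    have h2 : (n - 1) / g * g = g * ((n - 1) / g) := Nat.mul_comm _ _
    rw [h2, h1]
    omega
  have hmm : m₀ ≤ m + 1 := by
    by_contra hcon
    have h1 : m + 1 ≤ m₀ := by omega
    have h2 : g * (m + 1) ≤ g * m₀ := Nat.mul_le_mul_left g h1
    have h3 : g * (m + 1) = m * g + g := by ring
    omega
  obtain ⟨a1, a2, a3⟩ := polyP G hl p hp hpl r m
  rw [← hgd, ← hnm] at a1
  have hGR : ∀ x : ℝ, aeval (x : ℂ) G = ((aeval x G : ℝ) : ℂ) := by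
    intro x
    have h1 := aeval_algebraMap_apply ℂ x G
    simpa using h1
  have hroot : ∃ x : ℝ, 1 < x ∧ aeval (x : ℂ) (C (p : ℤ) * ((X - C 1) * X ^ r * G ^ m) - C 1) = 0 := by
    have hcont : ContinuousOn (fun x : ℝ => (p : ℝ) * ((x - 1) * x ^ r * (aeval x G) ^ m) - 1) (Set.Icc (1 : ℝ) 2) := by
      apply Continuous.continuousOn
      have h1 : Continuous (fun x : ℝ => aeval x G) := Polynomial.continuous_aeval G
      fun_prop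
    have hIVT := intermediate_value_Ioo (by norm_num : (1 : ℝ) ≤ 2) hcont
    have hG2 : 1 ≤ (aeval (2 : ℝ) G : ℝ) := by
      have h1 := hmin (((2 : ℝ) : ℝ) : ℂ) (by rw [Complex.norm_real]; norm_num)
      rw [hGR, Complex.norm_real, Real.norm_eq_abs, abs_of_pos (hpos 2 (by norm_num))] at h1
      exact h1
    have h0 : (0 : ℝ) ∈ Set.Ioo ((fun x : ℝ => (p : ℝ) * ((x - 1) * x ^ r * (aeval x G) ^ m) - 1) 1)
        ((fun x : ℝ => (p : ℝ) * ((x - 1) * x ^ r * (aeval x G) ^ m) - 1) 2) := by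
      constructor
      · norm_num
      · have h1 : (1 : ℝ) ≤ (2 : ℝ) ^ r := one_le_pow₀ (by norm_num)
        have h2 : (1 : ℝ) ≤ (aeval (2 : ℝ) G : ℝ) ^ m := one_le_pow₀ hG2
        have h3 : (2 : ℝ) ≤ p := by exact_mod_cast hp.two_le
        have h4 : (1 : ℝ) ≤ (2 : ℝ) ^ r * (aeval (2 : ℝ) G : ℝ) ^ m := one_le_mul_of_one_le_of_one_le h1 h2
        show (0 : ℝ) < (p : ℝ) * ((2 - 1) * 2 ^ r * (aeval (2 : ℝ) G) ^ m) - 1
        nlinarith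
    obtain ⟨x, hx, hx0⟩ := hIVT h0
    refine ⟨x, hx.1, ?_⟩
    rw [aevalP, hGR]
    have h5 : (((p : ℝ) * ((x - 1) * x ^ r * (aeval x G) ^ m) - 1 : ℝ) : ℂ) = 0 := by
      rw [show (p : ℝ) * ((x - 1) * x ^ r * (aeval x G) ^ m) - 1 = 0 from hx0]
      simp
    push_cast at h5
    exact h5
  have hnR : (0 : ℝ) < n := by exact_mod_cast (by omega : 0 < n)
  -- every root outside the closed disc is very close to one
  have hclose : ∀ z : ℂ, aeval z (C (p : ℤ) * ((X - C 1) * X ^ r * G ^ m) - C 1) = 0 → 1 < ‖z‖ →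
      (p : ℂ) * ((z - 1) * z ^ r * (aeval z G) ^ m) = 1 ∧ ‖z - 1‖ < ε ∧ ‖z - 1‖ * (p * ρ ^ m) ≤ 1 := by
    intro z hz h1
    rw [aevalP] at hz
    have heq : (p : ℂ) * ((z - 1) * z ^ r * (aeval z G) ^ m) = 1 := by linear_combination hz
    have hnorm : (p : ℝ) * (‖z - 1‖ * ‖z‖ ^ r * ‖aeval z G‖ ^ m) = 1 := by
      have := congrArg norm heq
      simpa [norm_mul, norm_pow] using this
    have hzr : 1 ≤ ‖z‖ ^ r := one_le_pow₀ h1.le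
    have hGm : 1 ≤ ‖aeval z G‖ ^ m := one_le_pow₀ (hmin z h1.le)
    have hn0 : 0 ≤ ‖z - 1‖ := norm_nonneg _
    have hδ : (p : ℝ) * ‖z - 1‖ ≤ 1 := by
      have h2 : ‖z - 1‖ * 1 ≤ ‖z - 1‖ * (‖z‖ ^ r * ‖aeval z G‖ ^ m) :=
        mul_le_mul_of_nonneg_left (one_le_mul_of_one_le_of_one_le hzr hGm) hn0
      have h3 : (p : ℝ) * ‖z - 1‖ ≤ (p : ℝ) * (‖z - 1‖ * (‖z‖ ^ r * ‖aeval z G‖ ^ m)) :=
        mul_le_mul_of_nonneg_left (by linarith) hp0.le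
      have h4 : (p : ℝ) * (‖z - 1‖ * (‖z‖ ^ r * ‖aeval z G‖ ^ m)) = 1 := by rw [← hnorm]; ring
      linarith
    have hδ2 : ‖z - 1‖ < ε := by
      refine lt_of_le_of_lt ?_ hp2
      rw [le_div_iff₀ hp0]; linarith
    have hρm : ρ ^ m ≤ ‖aeval z G‖ ^ m := pow_le_pow_left₀ hρ0.le (hball z hδ2).le m
    have hδ3 : ‖z - 1‖ * (p * ρ ^ m) ≤ 1 := by
      have h2 : ‖z - 1‖ * (1 * ρ ^ m) ≤ ‖z - 1‖ * (‖z‖ ^ r * ‖aeval z G‖ ^ m) := by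
        apply mul_le_mul_of_nonneg_left _ hn0
        exact mul_le_mul hzr hρm (by positivity) (by positivity)
      have h3 : (p : ℝ) * (‖z - 1‖ * (1 * ρ ^ m)) ≤ (p : ℝ) * (‖z - 1‖ * (‖z‖ ^ r * ‖aeval z G‖ ^ m)) :=
        mul_le_mul_of_nonneg_left h2 hp0.le
      have h4 : (p : ℝ) * (‖z - 1‖ * (‖z‖ ^ r * ‖aeval z G‖ ^ m)) = 1 := by rw [← hnorm]; ring
      have h5 : ‖z - 1‖ * (p * ρ ^ m) = (p : ℝ) * (‖z - 1‖ * (1 * ρ ^ m)) := by ring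
      linarith
    exact ⟨heq, hδ2, hδ3⟩
  have hpρ : 0 < (p : ℝ) * ρ ^ m := by positivity
  have hLm : 4 * ((r + m : ℕ) : ℝ) * L * (1 / (p * ρ ^ m)) ≤ 1 := by
    rw [mul_one_div, div_le_one hpρ]
    have h1 : 1 + m * (1 / 2 : ℝ) ≤ ρ ^ m := by
      have e1 := one_add_mul_le_pow (a := (1 / 2 : ℝ)) (by norm_num) m
      have e2 : (1 + 1 / 2 : ℝ) ^ m ≤ ρ ^ m := pow_le_pow_left₀ (by norm_num) (by linarith) m
      linarith
    have h2 : (r : ℝ) ≤ g := by exact_mod_cast hrg.le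
    have h3 : ((r + m : ℕ) : ℝ) ≤ (g + 2) * ρ ^ m := by
      push_cast
      have e1 : ((g : ℝ) + 2) * (1 + m * (1 / 2)) ≤ (g + 2) * ρ ^ m := mul_le_mul_of_nonneg_left h1 (by positivity)
      have e2 : (0 : ℝ) ≤ g * m := by positivity
      nlinarith
    calc 4 * ((r + m : ℕ) : ℝ) * L ≤ 4 * ((g + 2) * ρ ^ m) * L := by
          apply mul_le_mul_of_nonneg_right _ (by linarith)
          linarith
      _ = (4 * ((g : ℝ) + 2) * L) * ρ ^ m := by ring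
      _ ≤ p * ρ ^ m := mul_le_mul_of_nonneg_right hpL (by positivity)
  obtain ⟨β, hβ1, hβ0⟩ := hroot
  have hβn : ‖(β : ℂ)‖ = β := by rw [Complex.norm_real, Real.norm_eq_abs, abs_of_pos (by linarith)]
  have hlcR : (((C (p : ℤ) * ((X - C 1) * X ^ r * G ^ m) - C 1).leadingCoeff : ℤ) : ℝ) = p * ℓ ^ m := by
    rw [a2, hℓ]; push_cast; ring
  refine ⟨_, β, a3, a1, ?_, hβ1, ?_, ?_⟩
  · rw [a2]
    have h1 : (0 : ℤ) < p := by exact_mod_cast hp.pos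
    positivity
  · rw [hlcR]
    have hposD : 0 < ((p : ℝ) * ℓ ^ m * n) ^ A := by positivity
    obtain ⟨_, _, hδ3⟩ := hclose β hβ0 (by rw [hβn]; exact hβ1)
    have hβ2 : ‖(β : ℂ) - 1‖ = β - 1 := by
      have e1 : (β : ℂ) - 1 = ((β - 1 : ℝ) : ℂ) := by push_cast; ring
      rw [e1, Complex.norm_real, Real.norm_eq_abs, abs_of_pos (by linarith)]
    rw [hβ2] at hδ3
    have hkey : ((p : ℝ) * ℓ ^ m * n) ^ A ≤ c * (p * ρ ^ m) := by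
      have h2 := hm₀ (m + 1) hmm
      have h3 : (n : ℝ) ≤ (m + 1 : ℕ) * g := by
        exact_mod_cast (by rw [hnm]; ring_nf; omega : n ≤ (m + 1) * g)
      have h4 : (n : ℝ) ^ A ≤ (((m + 1 : ℕ) : ℝ) * g) ^ A := pow_le_pow_left₀ hnR.le h3 A
      have h5 : (((m + 1 : ℕ) : ℝ)) ^ A * κ ^ (m + 1) * ((p : ℝ) ^ A * (g : ℝ) ^ A) < c * p * κ := by
        rwa [lt_div_iff₀ (by positivity)] at h2
      have h6 : κ * ρ = ℓ ^ A := by rw [hκ]; field_simp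
      have h7 : κ ^ m * ρ ^ m = (ℓ ^ m) ^ A := by
        rw [← mul_pow, h6, ← pow_mul, ← pow_mul, mul_comm]
      have h8 : (((m + 1 : ℕ) : ℝ)) ^ A * κ ^ m * ((p : ℝ) ^ A * (g : ℝ) ^ A) < c * p := by
        have h9 : (((m + 1 : ℕ) : ℝ)) ^ A * κ ^ (m + 1) * ((p : ℝ) ^ A * (g : ℝ) ^ A) =
            ((((m + 1 : ℕ) : ℝ)) ^ A * κ ^ m * ((p : ℝ) ^ A * (g : ℝ) ^ A)) * κ := by ring
        rw [h9] at h5
        exact lt_of_mul_lt_mul_right h5 hκ0.le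
      calc ((p : ℝ) * ℓ ^ m * n) ^ A = (p : ℝ) ^ A * (ℓ ^ m) ^ A * (n : ℝ) ^ A := by rw [mul_pow, mul_pow]
        _ ≤ (p : ℝ) ^ A * (ℓ ^ m) ^ A * (((m + 1 : ℕ) : ℝ) * g) ^ A := mul_le_mul_of_nonneg_left h4 (by positivity)
        _ = ((((m + 1 : ℕ) : ℝ)) ^ A * κ ^ m * ((p : ℝ) ^ A * (g : ℝ) ^ A)) * ρ ^ m := by
            rw [← h7, mul_pow]; ring
        _ ≤ (c * p) * ρ ^ m := mul_le_mul_of_nonneg_right h8.le (by positivity)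
        _ = c * (p * ρ ^ m) := by ring
    have hfin : β - 1 ≤ c / ((p : ℝ) * ℓ ^ m * n) ^ A := by
      rw [le_div_iff₀ hposD]
      calc (β - 1) * ((p : ℝ) * ℓ ^ m * n) ^ A ≤ (β - 1) * (c * (p * ρ ^ m)) := mul_le_mul_of_nonneg_left hkey (by linarith)
        _ = c * ((β - 1) * (p * ρ ^ m)) := by ring
        _ ≤ c * 1 := mul_le_mul_of_nonneg_left hδ3 hc.le
        _ = c := mul_one c
    linarith
  · intro z
    constructor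
    · rintro ⟨hz0, hz1⟩
      obtain ⟨z1, z2, z3⟩ := hclose z hz0 hz1
      obtain ⟨b1, b2, b3⟩ := hclose β hβ0 (by rw [hβn]; exact hβ1)
      refine uniq z β (aeval z G) (aeval (β : ℂ) G) r m L (1 / (p * ρ ^ m)) hL1 hz1.le (hmin z hz1.le)
        (hLip z β (lt_of_lt_of_le z2 hεε) (lt_of_lt_of_le b2 hεε)) ?_ ?_ hLm ?_
      · rw [le_div_iff₀ hpρ]; exact z3
      · rw [le_div_iff₀ hpρ]; exact b3
      · have hpC : (p : ℂ) ≠ 0 := by exact_mod_cast hp.ne_zero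
        apply mul_left_cancel₀ hpC
        rw [z1, b1]
    · intro h
      rw [h]
      exact ⟨hβ0, by rw [hβn]; exact hβ1⟩

/-- for every power: no bound `c / (q n) ^ A` -/
theorem noPow (A : ℕ) (c : ℝ) (hc : 0 < c) :
    ∃ n₀ : ℕ, ∀ n ≥ n₀, ∃ (P : ℤ[X]) (β : ℝ), Irreducible P ∧ P.natDegree = n ∧ 0 < P.leadingCoeff ∧ 1 < β ∧
      β ≤ 1 + c / ((P.leadingCoeff : ℝ) * (n : ℝ)) ^ A ∧ ∀ z : ℂ, (aeval z P = 0 ∧ 1 < ‖z‖) ↔ z = β := by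
  obtain ⟨G, h1, h2, h3, h4, h5⟩ := exists_G A
  exact red G A h1 h2 h3 h4 h5 c hc

end Pool.Agent.H78SZ
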