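import Pool.Agent.helper78.SZ.T7

set_option autoImplicit false

namespace Pool.Agent.H78SZ

open Polynomial

/-- the explicit polynomials `3 (X - 1) (2 X + 1) ^ (n - 1) - 1` -/
theorem expl (n : ℕ) (hn : 1 ≤ n) :
    (C 3 * ((X - C 1) * (C 2 * X + C 1) ^ (n - 1)) - C 1 : ℤ[X]).natDegree = n ∧
    (C 3 * ((X - C 1) * (C 2 * X + C 1) ^ (n - 1)) - C 1 : ℤ[X]).leadingCoeff = 3 * 2 ^ (n - 1) ∧
    Irreducible (C 3 * ((X - C 1) * (C 2 * X + C 1) ^ (n - 1)) - C 1 : ℤ[X]) ∧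
    ∃ β : ℝ, 1 < β ∧ β ≤ 1 + 1 / 3 ^ n ∧
      ∀ z : ℂ, (aeval z (C 3 * ((X - C 1) * (C 2 * X + C 1) ^ (n - 1)) - C 1 : ℤ[X]) = 0 ∧ 1 < ‖z‖) ↔ z = β := by
  obtain ⟨m, rfl⟩ : ∃ m, n = m + 1 := ⟨n - 1, by omega⟩
  rw [Nat.add_sub_cancel]
  have hX1 : (X - C (1 : ℤ)) ≠ 0 := X_sub_C_ne_zero 1
  have h2 : (C (2 : ℤ) * X + C 1).natDegree = 1 := natDegree_linear (by norm_num)
  have hG0 : (C (2 : ℤ) * X + C 1) ≠ 0 := by
    intro h
    rw [h] at h2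
    simp at h2
  have hGm : (C (2 : ℤ) * X + C 1) ^ m ≠ 0 := pow_ne_zero _ hG0
  have e1 : ((X - C (1 : ℤ)) * (C 2 * X + C 1) ^ m).natDegree = m + 1 := by
    rw [natDegree_mul hX1 hGm, natDegree_pow, h2, natDegree_X_sub_C]
    ring
  have e2 : ((X - C (1 : ℤ)) * (C 2 * X + C 1) ^ m).leadingCoeff = 2 ^ m := by
    rw [leadingCoeff_mul, leadingCoeff_X_sub_C, leadingCoeff_pow, leadingCoeff_linear (by norm_num : (2 : ℤ) ≠ 0), one_mul]
  have e3 : ((X - C (1 : ℤ)) * (C 2 * X + C 1) ^ m).eval 1 = 0 := by simp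
  have e4 : ¬ ((3 : ℕ) : ℤ) ∣ ((X - C (1 : ℤ)) * (C 2 * X + C 1) ^ m).leadingCoeff := by
    rw [e2]
    intro h
    have hpp : Prime ((3 : ℕ) : ℤ) := Nat.prime_iff_prime_int.1 Nat.prime_three
    have h1 := hpp.dvd_of_dvd_pow h
    norm_num at h1
  obtain ⟨a1, a2, a3⟩ := irr_gen 3 Nat.prime_three _ (by rw [e1]; omega) e4 e3
  rw [e1] at a1
  rw [e2] at a2
  refine ⟨a1, a2, a3, ?_⟩
  have hae : ∀ z : ℂ, aeval z (C 3 * ((X - C 1) * (C 2 * X + C 1) ^ m) - C 1 : ℤ[X]) = 3 * ((z - 1) * (2 * z + 1) ^ m) - 1 := by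
    intro z
    simp only [map_sub, map_mul, map_pow, map_add, aeval_X, aeval_C]
    simp
  -- a real root
  have hroot : ∃ x : ℝ, 1 < x ∧ 3 * ((x - 1) * (2 * x + 1) ^ m) = 1 := by
    have hcont : ContinuousOn (fun x : ℝ => 3 * ((x - 1) * (2 * x + 1) ^ m) - 1) (Set.Icc (1 : ℝ) 2) := by
      apply Continuous.continuousOn
      fun_prop
    have hIVT := intermediate_value_Ioo (by norm_num : (1 : ℝ) ≤ 2) hcont
    have h0 : (0 : ℝ) ∈ Set.Ioo ((fun x : ℝ => 3 * ((x - 1) * (2 * x + 1) ^ m) - 1) 1)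
        ((fun x : ℝ => 3 * ((x - 1) * (2 * x + 1) ^ m) - 1) 2) := by
      constructor
      · norm_num
      · have h5 : (1 : ℝ) ≤ 5 ^ m := one_le_pow₀ (by norm_num)
        norm_num
        linarith
    obtain ⟨x, hx, hx0⟩ := hIVT h0
    refine ⟨x, hx.1, ?_⟩
    have h6 : 3 * ((x - 1) * (2 * x + 1) ^ m) - 1 = 0 := hx0
    linarith
  have hclose : ∀ z : ℂ, aeval z (C 3 * ((X - C 1) * (C 2 * X + C 1) ^ m) - C 1 : ℤ[X]) = 0 → 1 < ‖z‖ →
      3 * ((z - 1) * (2 * z + 1) ^ m) = 1 ∧ 7 / 3 ≤ ‖2 * z + 1‖ ∧ ‖z - 1‖ ≤ 1 / (3 * (7 / 3) ^ m) := by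
    intro z hz h1
    rw [hae] at hz
    have heq : 3 * ((z - 1) * (2 * z + 1) ^ m) = 1 := by linear_combination hz
    have hnorm : 3 * (‖z - 1‖ * ‖2 * z + 1‖ ^ m) = 1 := by
      have := congrArg norm heq
      simpa [norm_mul, norm_pow] using this
    have hA : 1 ≤ ‖2 * z + 1‖ := by
      have h := norm_sub_norm_le (2 * z) (-1)
      have h2 : ‖2 * z‖ = 2 * ‖z‖ := by simp
      have h3 : 2 * z - (-1) = 2 * z + 1 := by ring
      rw [h3, h2] at h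
      simp at h
      linarith
    have hApow : 1 ≤ ‖2 * z + 1‖ ^ m := one_le_pow₀ hA
    have hn : 0 ≤ ‖z - 1‖ := norm_nonneg _
    have hB : ‖z - 1‖ ≤ 1 / 3 := by nlinarith
    have hC : 7 / 3 ≤ ‖2 * z + 1‖ := by
      have h := norm_sub_norm_le (3 : ℂ) (-(2 * (z - 1)))
      have h3 : (3 : ℂ) - (-(2 * (z - 1))) = 2 * z + 1 := by ring
      rw [h3] at h
      have h4 : ‖-(2 * (z - 1))‖ = 2 * ‖z - 1‖ := by simp
      rw [h4] at h
      have h5 : ‖(3 : ℂ)‖ = 3 := by simp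
      rw [h5] at h
      linarith
    have hCpow : (7 / 3 : ℝ) ^ m ≤ ‖2 * z + 1‖ ^ m := pow_le_pow_left₀ (by norm_num) hC m
    refine ⟨heq, hC, ?_⟩
    rw [le_div_iff₀ (by positivity)]
    have := mul_le_mul_of_nonneg_left hCpow hn
    linarith
  obtain ⟨β, hβ1, hβ0⟩ := hroot
  have hβn : ‖(β : ℂ)‖ = β := by rw [Complex.norm_real, Real.norm_eq_abs, abs_of_pos (by linarith)]
  have hβroot : aeval (β : ℂ) (C 3 * ((X - C 1) * (C 2 * X + C 1) ^ m) - C 1 : ℤ[X]) = 0 := by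
    rw [hae]
    have h5 : ((3 * ((β - 1) * (2 * β + 1) ^ m) - 1 : ℝ) : ℂ) = 0 := by
      rw [hβ0]
      simp
    push_cast at h5
    exact h5
  refine ⟨β, hβ1, ?_, ?_⟩
  · have h3 : (3 : ℝ) ^ m ≤ (2 * β + 1) ^ m := pow_le_pow_left₀ (by norm_num) (by linarith) m
    have h4 : (β - 1) * 3 ^ (m + 1) ≤ 1 := by
      rw [pow_succ]
      have h5 := mul_le_mul_of_nonneg_left h3 (by linarith : 0 ≤ β - 1)
      linarith
    have h6 : β - 1 ≤ 1 / 3 ^ (m + 1) := by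
      rw [le_div_iff₀ (by positivity)]
      exact h4
    linarith
  · intro z
    constructor
    · rintro ⟨hz0, hz1⟩
      obtain ⟨z1, z2, z3⟩ := hclose z hz0 hz1
      obtain ⟨b1, b2, b3⟩ := hclose β hβroot (by rw [hβn]; exact hβ1)
      refine uniq z β (3 / 7 * (2 * z + 1)) (3 / 7 * (2 * β + 1)) 0 m 1 (1 / (3 * (7 / 3) ^ m)) le_rfl hz1.le ?_ ?_ z3 b3 ?_ ?_
      · rw [norm_mul]
        have h5 : ‖(3 / 7 : ℂ)‖ = 3 / 7 := by simp
        rw [h5]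
        linarith
      · have h5 : (3 / 7 * (2 * β + 1) - 3 / 7 * (2 * z + 1) : ℂ) = 6 / 7 * (β - z) := by ring
        have h6 : ‖(6 / 7 : ℂ)‖ = 6 / 7 := by simp
        rw [h5, norm_mul, h6]
        linarith [norm_nonneg ((β : ℂ) - z)]
      · rw [Nat.zero_add, mul_one, mul_one_div, div_le_one (by positivity)]
        have h5 := one_add_mul_le_pow (a := (4 / 3 : ℝ)) (by norm_num) m
        have h6 : (1 + 4 / 3 : ℝ) = 7 / 3 := by norm_num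
        rw [h6] at h5
        linarith
      · rw [mul_pow, mul_pow, pow_zero, pow_zero]
        linear_combination (3 / 7 : ℂ) ^ m / 3 * (z1 - b1)
    · intro h
      rw [h]
      exact ⟨hβroot, by rw [hβn]; exact hβ1⟩

end Pool.Agent.H78SZ
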